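import Pool.Agent.Lib.MP_a48479_al.Core

namespace Pool.Agent.Results.MP_a48479_al.FreeBasis

/-- Let `G` be a group with a one-relator presentation on a finite or countably infinite set `X`
and with an element `g ≠ 1` of finite order. Every subgroup `H` that meets the subgroup generated
by the elements of finite order trivially is freely generated by a subset `S` of `G`. -/
theorem result {X : Type*} [Countable X] {G : Type*} [Group G] (r : FreeGroup X)
    (σ : FreeGroup X →* G) (hσ : Function.Surjective σ)
    (hker : σ.ker = Subgroup.normalClosure {r})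
    (htor : ∃ g : G, g ≠ 1 ∧ ∃ n : ℕ, 0 < n ∧ g ^ n = 1) (H : Subgroup G)
    (hH : H ⊓ Subgroup.closure {g : G | ∃ n : ℕ, 0 < n ∧ g ^ n = 1} = ⊥) :
    ∃ S : Set G, Subgroup.closure S = H ∧
      Function.Injective (FreeGroup.lift (Subtype.val : S → G)) := by
  obtain ⟨g, h1, h2⟩ := htor
  refine Pool.Agent.Lib.MP_a48479_al.main r σ hσ hker h1 (isOfFinOrder_iff_pow_eq_one.2 h2) H
    fun h h3 h4 => ?_
  simp only [isOfFinOrder_iff_pow_eq_one] at h4
  rw [← Subgroup.mem_bot, ← hH]
  exact ⟨h3, h4⟩

end Pool.Agent.Results.MP_a48479_al.FreeBasis
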